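import Pool.Agent.helper62.DP8.Spec

set_option autoImplicit false

namespace Pool.Agent.helper62.DP8

theorem CLO_aper {W : Type} (g : ℕ) (a : ℕ → Finset W) (pa : ∀ i, a (i + g) = a i) (i : ℕ) :
    ∀ k, a (i + g * k) = a i := by
  intro k
  induction k with
  | zero => simp
  | succ k ih =>
    rw [Nat.mul_succ, ← Nat.add_assoc, pa, ih]

theorem CLO_tper {W : Type} (g : ℕ) (t : ℕ → Bool → W → Prop) (pt : ∀ i s x, t (i + g) s x ↔ t i s x) (i : ℕ) (s : Bool) (x : W) :
    ∀ k, (t (i + g * k) s x ↔ t i s x) := by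
  intro k
  induction k with
  | zero => simp
  | succ k ih =>
    rw [Nat.mul_succ, ← Nat.add_assoc, pt, ih]

theorem CLO_amod {W : Type} (g : ℕ) (a : ℕ → Finset W) (pa : ∀ i, a (i + g) = a i) (i : ℕ) :
    a i = a (i % g) := by
  have h := CLO_aper g a pa (i % g) (i / g)
  rw [Nat.mod_add_div] at h
  exact h

theorem CLO_tmod {W : Type} (g : ℕ) (t : ℕ → Bool → W → Prop) (pt : ∀ i s x, t (i + g) s x ↔ t i s x) (i : ℕ) (s : Bool) (x : W) :
    t i s x ↔ t (i % g) s x := by
  have h := CLO_tper g t pt (i % g) s x (i / g)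
  rw [Nat.mod_add_div] at h
  exact h

theorem CLO : CLO_stmt := by
  intro g W a R t c hC hmem hr1 hr2 hp h1 h2 h3 h4 h5
  have g5 := hC.g5
  have hg0 : 0 < g := by omega
  refine ⟨fun i => c (i % g), ?_, ?_, ?_, ?_⟩
  · intro i
    show c ((i + g) % g) = c (i % g)
    rw [Nat.add_mod_right]
  · intro i
    show c (i % g) ∈ a i
    rw [CLO_amod g a hC.pa i]
    exact hmem _ (Nat.mod_lt _ hg0)
  · intro i
    show ¬ R (c (i % g)) (c ((i + 1) % g)) ∧ ¬ R (c (i % g)) (c ((i + 2) % g))
    have hr : i % g < g := Nat.mod_lt _ hg0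
    have e1 : (i + 1) % g = (i % g + 1) % g := (Nat.mod_add_mod i g 1).symm
    have e2 : (i + 2) % g = (i % g + 2) % g := (Nat.mod_add_mod i g 2).symm
    rw [e1, e2]
    generalize i % g = r at hr
    rcases Nat.lt_or_ge (r + 2) g with hlt | hge
    · rw [Nat.mod_eq_of_lt (show r + 1 < g by omega), Nat.mod_eq_of_lt hlt]
      exact ⟨hr1 r (by omega), hr2 r hlt⟩
    · rcases Nat.lt_or_ge (r + 1) g with hlt1 | hge1
      · have hr' : r = g - 2 := by omega
        subst hr'
        have e3 : g - 2 + 1 = g - 1 := by omega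
        have e4 : g - 2 + 2 = g := by omega
        rw [e4, Nat.mod_self, Nat.mod_eq_of_lt hlt1]
        exact ⟨hr1 (g - 2) (by omega), h3⟩
      · have hr' : r = g - 1 := by omega
        subst hr'
        have e3 : g - 1 + 1 = g := by omega
        have e4 : g - 1 + 2 = 1 + g := by omega
        rw [e3, e4, Nat.mod_self, Nat.add_mod_right, Nat.mod_eq_of_lt (show 1 < g by omega)]
        exact ⟨h1, h2⟩
  · intro i
    show ∃ s, ¬ t (i + 1) s (c (i % g)) ∧ ¬ t (i + 1) s (c ((i + 1) % g)) ∧ ¬ t (i + 1) s (c ((i + 2) % g))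
    have hr : i % g < g := Nat.mod_lt _ hg0
    have e1 : (i + 1) % g = (i % g + 1) % g := (Nat.mod_add_mod i g 1).symm
    have e2 : (i + 2) % g = (i % g + 2) % g := (Nat.mod_add_mod i g 2).symm
    have et : ∀ s x, (t (i + 1) s x ↔ t ((i % g + 1) % g) s x) := by
      intro s x
      rw [CLO_tmod g t hC.pt (i + 1) s x, e1]
    simp only [et]
    rw [e1, e2]
    generalize i % g = r at hr
    rcases Nat.lt_or_ge (r + 2) g with hlt | hge
    · rw [Nat.mod_eq_of_lt (show r + 1 < g by omega), Nat.mod_eq_of_lt hlt]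
      exact hp r hlt
    · rcases Nat.lt_or_ge (r + 1) g with hlt1 | hge1
      · have hr' : r = g - 2 := by omega
        subst hr'
        have e3 : g - 2 + 1 = g - 1 := by omega
        have e4 : g - 2 + 2 = g := by omega
        rw [e4, Nat.mod_self, Nat.mod_eq_of_lt hlt1, e3]
        exact h4
      · have hr' : r = g - 1 := by omega
        subst hr'
        have e3 : g - 1 + 1 = g := by omega
        have e4 : g - 1 + 2 = 1 + g := by omega
        rw [e3, e4, Nat.mod_self, Nat.add_mod_right, Nat.mod_eq_of_lt (show 1 < g by omega)]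
        exact h5

end Pool.Agent.helper62.DP8
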